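import Mathlib

namespace Pool.Agent.Results.MP_451208_an.NotSurjunctive

open Set

/-- the shift map -/
def shift {A : Type} (x : ℤ → A) : ℤ → A := fun n => x (n + 1)

abbrev A := Bool × Bool × Bool

def X : Set (ℤ → A) :=
  {x | ∀ i m : ℤ, 1 ≤ m → (x (i - m)).2.1 = true → (x (i + m)).2.2 = true → (x i).1 = true}

def τ (x : ℤ → A) : ℤ → A := fun i => ((x i).1, (x (i - 1)).2.1, (x (i + 1)).2.2)

lemma iter (n : ℕ) (x : ℤ → A) (i : ℤ) : shift^[n] x i = x (i + n) := by
  induction n generalizing i with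
  | zero => simp
  | succ n ih =>
    rw [Function.iterate_succ_apply', shift, ih]
    congr 1
    push_cast
    ring

lemma cyl {U : Set (ℤ → A)} (hU : IsOpen U) {x : ℤ → A} (hx : x ∈ U) :
    ∃ M : ℕ, ∀ z : ℤ → A, (∀ i : ℤ, i.natAbs ≤ M → z i = x i) → z ∈ U := by
  obtain ⟨I, u, h1, h2⟩ := isOpen_pi_iff.1 hU x hx
  refine ⟨I.sup Int.natAbs, fun z hz => h2 fun i hi => ?_⟩
  rw [hz i (Finset.le_sup (f := Int.natAbs) hi)]
  exact (h1 i hi).2

lemma sh {x : ℤ → A} (hx : x ∈ X) (c : ℤ) : (fun i => x (i + c)) ∈ X := fun i m hm h1 h2 =>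
  hx (i + c) m hm (by rwa [show i + c - m = i - m + c by ring])
    (by rwa [show i + c + m = i + m + c by ring])

theorem result : ∃ (X : Set (ℤ → Bool × Bool × Bool))
    (τ : (ℤ → Bool × Bool × Bool) → (ℤ → Bool × Bool × Bool)),
    IsClosed X ∧ shift '' X = X ∧
    (∀ U V, IsOpen U → IsOpen V → (U ∩ X).Nonempty → (V ∩ X).Nonempty →
      ∃ N : ℕ, ∀ n ≥ N, (shift^[n] '' (U ∩ X) ∩ (V ∩ X)).Nonempty) ∧
    MapsTo τ X X ∧ Continuous τ ∧ (∀ x, τ (shift x) = shift (τ x)) ∧ InjOn τ X ∧ τ '' X ≠ X := by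
  refine ⟨X, τ, ?_, ?_, ?_, ?_, ?_, ?_, ?_, ?_⟩
  · simp only [X, ofPred_forall]
    refine isClosed_iInter fun i => isClosed_iInter fun m => isClosed_iInter fun _ => ?_
    have : Continuous fun x : ℤ → A => (x (i - m), x (i + m), x i) := by fun_prop
    simpa [← ofPred_forall] using (isClosed_discrete
      {p : A × A × A | p.1.2.1 = true → p.2.1.2.2 = true → p.2.2.1 = true}).preimage this
  · refine subset_antisymm ?_ fun x hx => ⟨_, sh hx (-1), by funext i; simp [shift]⟩
    rintro _ ⟨x, hx, rfl⟩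
    exact sh hx 1
  · rintro U V hU hV ⟨x, hx, hx'⟩ ⟨y, hy, hy'⟩
    obtain ⟨M, hM⟩ := cyl hU hx
    obtain ⟨K, hK⟩ := cyl hV hy
    refine ⟨4 * (M + K) + 1, fun n hn => ?_⟩
    let z : ℤ → A := fun i =>
      if i.natAbs ≤ M then x i else if (i - n).natAbs ≤ K then y (i - n) else (true, false, false)
    have hz : z ∈ X := by
      intro i m hm h1 h2
      simp only [z] at h1 h2 ⊢
      split_ifs at h1 h2 ⊢ <;> first
        | rfl
        | omega
        | exact hx' i m hm h1 h2
        | exact hy' (i - n) m hm (by rwa [show i - n - m = i - m - n by ring])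
            (by rwa [show i - n + m = i + m - n by ring])
    refine ⟨_, ⟨z, ⟨hM z fun i hi => if_pos hi, hz⟩, rfl⟩, hK _ fun i hi => ?_, ?_⟩
    · rw [iter]
      simp only [z]
      rw [if_neg (by omega), add_sub_cancel_right, if_pos hi]
    · exact funext (iter n z) ▸ sh hz n
  · intro x hx i m hm h1 h2
    exact hx i (m + 1) (by omega) (by rwa [← sub_sub]) (by rwa [← add_assoc])
  · unfold τ
    fun_prop
  · intro x
    funext i
    simp [τ, shift]
  · intro x _ y _ h
    funext i
    have h1 := congrArg (fun w => (w i).1) h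
    have h2 := congrArg (fun w => (w (i + 1)).2.1) h
    have h3 := congrArg (fun w => (w (i - 1)).2.2) h
    simp only [τ, add_sub_cancel_right, sub_add_cancel] at h1 h2 h3
    exact Prod.ext h1 (Prod.ext h2 h3)
  · intro h
    have : (fun i => (false, decide (i = 0), decide (i = 0))) ∈ X := by
      intro i m hm h1 h2
      simp only [decide_eq_true_eq] at h1 h2
      omega
    rw [← h] at this
    obtain ⟨x, hx, e⟩ := this
    have h1 := congrArg (fun w => (w 0).1) e
    have h2 := congrArg (fun w => (w 0).2.1) e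
    have h3 := congrArg (fun w => (w 0).2.2) e
    simp only [τ] at h1 h2 h3
    have := hx 0 1 le_rfl (by simpa using h2) (by simpa using h3)
    simp [h1] at this

end Pool.Agent.Results.MP_451208_an.NotSurjunctive
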